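import Mathlib

/-!
# Tolerance graphs admit an efficient local representation

In a tolerance representation `(I_v, t_v)` with `I_v = [l v, r v]`, adjacency of `v` and `w` is a
Boolean combination of comparisons `a v ≤ b w` between a number attached to `v` and a number
attached to `w`, where the attached numbers are `r - t`, `l`, `l + t`, `r`, `t`, `r - l`.
Replacing these `6 n` real numbers by their ranks keeps all comparisons, and six ranks, each at most
`6 n`, fit into one label of size at most `n ^ 32`.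
-/

namespace Pool.Agent.Results.MP_04ae81_co.ToleranceEfficient

open MeasureTheory

universe u

/-- `G` is a tolerance graph: one can assign to every vertex `v` a closed interval
`I_v = [l v, r v]` and a tolerance `t v > 0` such that distinct `v`, `w` are adjacent exactly when
the length (Lebesgue measure) of `I_v ∩ I_w` is at least `min (t v) (t w)`. -/
def IsToleranceGraph {V : Type u} (G : SimpleGraph V) : Prop :=
  ∃ l r t : V → ℝ, (∀ v, l v ≤ r v) ∧ (∀ v, 0 < t v) ∧
    ∀ v w, v ≠ w →
      (G.Adj v w ↔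
        min (t v) (t w) ≤ (volume (Set.Icc (l v) (r v) ∩ Set.Icc (l w) (r w))).toReal)

/-- `(A, k)` is an efficient local representation of the graph property `P`: `A` is a symmetric
`0/1`-valued function on pairs of positive integers, `k` is a positive integer, and for every
finite graph `G` with `P G` there are labels `ℓ v ∈ {1, …, n ^ k}`, `n` the number of vertices,
such that distinct `v`, `w` are adjacent exactly when `A (ℓ v) (ℓ w) = 1`. -/
def IsEfficientLocalRepresentation (P : ∀ V : Type u, SimpleGraph V → Prop)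
    (A : ℕ+ → ℕ+ → Fin 2) (k : ℕ) : Prop :=
  (∀ a b, A a b = A b a) ∧ 0 < k ∧
    ∀ (V : Type u) [Fintype V] (G : SimpleGraph V), P V G →
      ∃ ℓ : V → ℕ+, (∀ v, (ℓ v : ℕ) ≤ Fintype.card V ^ k) ∧
        ∀ v w, v ≠ w → (G.Adj v w ↔ A (ℓ v) (ℓ w) = 1)

/-! ### Encoding of six natural numbers -/

/-- Encoding of a 6-tuple of natural numbers by one natural number. -/
def enc (x : Fin 6 → ℕ) : ℕ :=
  Nat.pair (Nat.pair (x 0) (x 1)) (Nat.pair (Nat.pair (x 2) (x 3)) (Nat.pair (x 4) (x 5)))

/-- The decoding function for `enc`. -/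
def dec (n : ℕ) : Fin 6 → ℕ :=
  ![(Nat.unpair (Nat.unpair n).1).1, (Nat.unpair (Nat.unpair n).1).2,
    (Nat.unpair (Nat.unpair (Nat.unpair n).2).1).1, (Nat.unpair (Nat.unpair (Nat.unpair n).2).1).2,
    (Nat.unpair (Nat.unpair (Nat.unpair n).2).2).1, (Nat.unpair (Nat.unpair (Nat.unpair n).2).2).2]

lemma dec_enc (x : Fin 6 → ℕ) : dec (enc x) = x := by
  funext i
  fin_cases i <;> simp [dec, enc]

lemma pair_lt {a b N M : ℕ} (ha : a < N) (hb : b < N) (hM : N ^ 2 ≤ M) : Nat.pair a b < M := by
  have h1 := Nat.pair_lt_max_add_one_sq a b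
  have h2 : max a b + 1 ≤ N := by
    have : max a b < N := max_lt ha hb
    omega
  have h3 : (max a b + 1) ^ 2 ≤ N ^ 2 := Nat.pow_le_pow_left h2 2
  omega

lemma enc_lt {x : Fin 6 → ℕ} {N : ℕ} (hN : 1 ≤ N) (hx : ∀ i, x i < N) : enc x < N ^ 8 := by
  have h4 : N ^ 2 ≤ N ^ 4 := Nat.pow_le_pow_right hN (by norm_num)
  have a1 : Nat.pair (x 0) (x 1) < N ^ 4 := lt_of_lt_of_le (pair_lt (hx 0) (hx 1) le_rfl) h4
  have a2 : Nat.pair (x 2) (x 3) < N ^ 2 := pair_lt (hx 2) (hx 3) le_rfl
  have a3 : Nat.pair (x 4) (x 5) < N ^ 2 := pair_lt (hx 4) (hx 5) le_rfl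
  have a4 : Nat.pair (Nat.pair (x 2) (x 3)) (Nat.pair (x 4) (x 5)) < N ^ 4 :=
    pair_lt a2 a3 (by rw [← pow_mul])
  exact pair_lt a1 a4 (by rw [← pow_mul])

/-! ### The decoder -/

/-- The condition `|I_v ∩ I_w| ≥ t_v`, expressed through the six numbers
`r - t, l, l + t, r, t, r - l` attached to `v` and to `w`. -/
def Half {α : Type*} [LE α] (a b : Fin 6 → α) : Prop :=
  a 4 ≤ a 5 ∧ b 1 ≤ a 0 ∧ a 2 ≤ b 3 ∧ a 4 ≤ b 5

open Classical in
/-- The symmetric decoder. -/
noncomputable def decoder (x y : ℕ+) : Fin 2 :=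
  if Half (dec ((x : ℕ) - 1)) (dec ((y : ℕ) - 1)) ∨ Half (dec ((y : ℕ) - 1)) (dec ((x : ℕ) - 1))
  then 1 else 0

/-- The six numbers attached to a vertex. -/
def nums {V : Type u} (l r t : V → ℝ) (v : V) : Fin 6 → ℝ :=
  ![r v - t v, l v, l v + t v, r v, t v, r v - l v]

lemma length_inter (a b c d : ℝ) :
    (volume (Set.Icc a b ∩ Set.Icc c d)).toReal = max (min b d - max a c) 0 := by
  rw [Set.Icc_inter_Icc, Real.volume_Icc, ENNReal.toReal_ofReal']

lemma half_iff {V : Type u} (l r t : V → ℝ) (ht : ∀ v, 0 < t v) (v w : V) :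
    t v ≤ (volume (Set.Icc (l v) (r v) ∩ Set.Icc (l w) (r w))).toReal ↔
      Half (nums l r t v) (nums l r t w) := by
  have h0 := ht v
  rw [length_inter]
  have e : max (min (r v) (r w) - max (l v) (l w)) 0 ≥ t v ↔
      min (r v) (r w) - max (l v) (l w) ≥ t v := by
    constructor
    · intro h
      rcases le_max_iff.mp h with h | h
      · exact h
      · linarith
    · intro h
      exact le_max_of_le_left h
  rw [ge_iff_le, ge_iff_le] at e
  rw [e]
  simp only [Half, nums, Matrix.cons_val]
  constructor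
  · intro h
    have h1 : min (r v) (r w) ≤ r v := min_le_left _ _
    have h2 : min (r v) (r w) ≤ r w := min_le_right _ _
    have h3 : l v ≤ max (l v) (l w) := le_max_left _ _
    have h4 : l w ≤ max (l v) (l w) := le_max_right _ _
    refine ⟨?_, ?_, ?_, ?_⟩ <;> linarith
  · rintro ⟨h1, h2, h3, h4⟩
    rcases min_cases (r v) (r w) with ⟨hm, _⟩ | ⟨hm, _⟩ <;>
    rcases max_cases (l v) (l w) with ⟨hM, _⟩ | ⟨hM, _⟩ <;>
    rw [hm, hM] <;> linarith

/-! ### Ranks -/

/-- Rank of a real number in a finite set of reals. -/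
noncomputable def rank (S : Finset ℝ) (x : ℝ) : ℕ := (S.filter (fun y => y ≤ x)).card

lemma rank_le_iff (S : Finset ℝ) {x y : ℝ} (hx : x ∈ S) : rank S x ≤ rank S y ↔ x ≤ y := by
  constructor
  · intro h
    by_contra hlt
    push Not at hlt
    have hsub : S.filter (fun z => z ≤ y) ⊂ S.filter (fun z => z ≤ x) := by
      refine Finset.ssubset_iff_subset_ne.mpr ⟨?_, ?_⟩
      · intro z hz
        simp only [Finset.mem_filter] at hz ⊢
        exact ⟨hz.1, hz.2.trans hlt.le⟩
      · intro heq
        have : x ∈ S.filter (fun z => z ≤ y) := by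
          rw [heq]
          simp [hx]
        simp only [Finset.mem_filter] at this
        linarith [this.2]
    have := Finset.card_lt_card hsub
    unfold rank at h
    omega
  · intro h
    apply Finset.card_le_card
    intro z hz
    simp only [Finset.mem_filter] at hz ⊢
    exact ⟨hz.1, hz.2.trans h⟩

/-- **Tolerance graphs admit an efficient local representation.** -/
theorem result :
    ∃ (A : ℕ+ → ℕ+ → Fin 2) (k : ℕ),
      IsEfficientLocalRepresentation.{u} (fun _ G => IsToleranceGraph G) A k := by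
  classical
  refine ⟨decoder, 32, ?_, by norm_num, ?_⟩
  · intro a b
    unfold decoder
    by_cases h : Half (dec ((a : ℕ) - 1)) (dec ((b : ℕ) - 1)) ∨
        Half (dec ((b : ℕ) - 1)) (dec ((a : ℕ) - 1))
    · rw [if_pos h, if_pos h.symm]
    · rw [if_neg h, if_neg (fun h' => h h'.symm)]
  intro V _ G hG
  obtain ⟨l, r, t, _, ht, hadj⟩ := hG
  rcases Nat.lt_or_ge (Fintype.card V) 2 with hn | hn
  · -- at most one vertex
    have hsub : Subsingleton V := Fintype.card_le_one_iff_subsingleton.mp (by omega)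
    refine ⟨fun _ => 1, ?_, ?_⟩
    · intro v
      have : 0 < Fintype.card V := Fintype.card_pos_iff.mpr ⟨v⟩
      exact Nat.one_le_pow _ _ this
    · intro v w hvw
      exact absurd (Subsingleton.elim v w) hvw
  · -- the finite set of all attached numbers
    let S : Finset ℝ := Finset.univ.image (fun p : V × Fin 6 => nums l r t p.1 p.2)
    have hS : ∀ v i, nums l r t v i ∈ S := fun v i =>
      Finset.mem_image.mpr ⟨(v, i), Finset.mem_univ _, rfl⟩
    have hcard : S.card ≤ 6 * Fintype.card V := by
      calc S.card ≤ (Finset.univ : Finset (V × Fin 6)).card := Finset.card_image_le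
        _ = 6 * Fintype.card V := by
          rw [Finset.card_univ, Fintype.card_prod, Fintype.card_fin, mul_comm]
    let ρ : V → Fin 6 → ℕ := fun v i => rank S (nums l r t v i)
    have hρ : ∀ v i, ρ v i < 6 * Fintype.card V + 1 := by
      intro v i
      have h1 : ρ v i ≤ S.card := Finset.card_filter_le _ _
      omega
    have hle : ∀ v w i j, ρ v i ≤ ρ w j ↔ nums l r t v i ≤ nums l r t w j := fun v w i j =>
      rank_le_iff S (hS v i)
    refine ⟨fun v => (enc (ρ v)).succPNat, ?_, ?_⟩
    · intro v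
      have h1 : enc (ρ v) < (6 * Fintype.card V + 1) ^ 8 := enc_lt (by omega) (hρ v)
      have h2 : 6 * Fintype.card V + 1 ≤ Fintype.card V ^ 4 := by
        have : 8 ≤ Fintype.card V ^ 3 := by
          calc 8 = 2 ^ 3 := by norm_num
            _ ≤ Fintype.card V ^ 3 := Nat.pow_le_pow_left hn 3
        calc 6 * Fintype.card V + 1 ≤ 8 * Fintype.card V := by omega
          _ ≤ Fintype.card V ^ 3 * Fintype.card V := Nat.mul_le_mul_right _ this
          _ = Fintype.card V ^ 4 := by ring
      have h3 : (6 * Fintype.card V + 1) ^ 8 ≤ Fintype.card V ^ 32 := by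
        calc (6 * Fintype.card V + 1) ^ 8 ≤ (Fintype.card V ^ 4) ^ 8 := Nat.pow_le_pow_left h2 8
          _ = Fintype.card V ^ 32 := by rw [← pow_mul]
      simp only [Nat.succPNat_coe]
      omega
    · intro v w hvw
      have hd : ∀ v, dec (((enc (ρ v)).succPNat : ℕ) - 1) = ρ v := by
        intro v
        simp [dec_enc]
      have hhalf : ∀ v w, Half (ρ v) (ρ w) ↔ Half (nums l r t v) (nums l r t w) := by
        intro v w
        unfold Half
        rw [hle, hle, hle, hle]
      rw [hadj v w hvw, min_le_iff, half_iff l r t ht v w]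
      have hsymm : (volume (Set.Icc (l v) (r v) ∩ Set.Icc (l w) (r w))).toReal =
          (volume (Set.Icc (l w) (r w) ∩ Set.Icc (l v) (r v))).toReal := by
        rw [Set.inter_comm]
      rw [hsymm, half_iff l r t ht w v]
      unfold decoder
      rw [hd, hd, hhalf, hhalf]
      by_cases h : Half (nums l r t v) (nums l r t w) ∨ Half (nums l r t w) (nums l r t v)
      · simp [h]
      · simp [h]

end Pool.Agent.Results.MP_04ae81_co.ToleranceEfficient
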